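import Pool.Agent.U442.PC.Op
import Pool.Agent.U442.PC.Defs

set_option autoImplicit false

open Finset Polynomial Pool.Agent.W432.WB Pool.Agent.W432.HK Pool.Agent.Y227.SO
open Pool.Agent.TH571.PCV Pool.Agent.R927 Pool.Agent.U442.PC

/-!
# An explicit density of primes with no full basis of solutions

Let `L` be an irreducible Fuchsian operator of order `r` with rational exponents, any number of
singular points and arbitrary accessory parameters. The starting results give, for such operators which
violate a condition on the exponents, one residue class of bad primes (`FewExponents`,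
`MultiplicityInequality`, `IndexNonnegative`), or a proportion of bad primes which comes from a
compactness argument and is not known (`StableDensity`). Here the proportion is explicit: **the lower
natural density of the primes `p` such that the reduction of `L` modulo `p` does not have a full basis
of solutions is at least `E / (3 r ^ 2)`**, where `E` is an explicit quadratic expression in the
exponents (the mean over all conjugates of the violation of one inequality for stable parabolic
bundles). If the exponents (up to a twist) have a prime denominator `N` or a denominator without small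
prime factors, `E` is (close to) an integer which depends only on the multiplicities of the exponents
modulo `ℤ`: `P(x₀) + P(x₁) - 2 R - s ^ 2 - P'`. For the operators of Okubo type (at most `r` nonintegral
exponents away from `x₀`), with exponents in general position, **the density is at least
`2 m / (3 r ^ 2)`**, `m` the number of nonintegral exponents at any one of the points `x₁ ≠ x₀`; the number
of accessory parameters is not bounded.
-/

namespace Pool.Agent.Results.MP_aa40d3_nt.ExplicitDensity

/-- For all large `X` at least `δ π(X)` of the primes `p ≤ X` are such that the reduction of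
`∑ b k ∂ ^ k` modulo `p` does not have a full basis of rational solutions. -/
def BadDensity {n : ℕ} (b : Fin (n + 1) → ℤ[X]) (δ : ℝ) : Prop :=
  ∃ X₀ : ℕ, ∀ X : ℕ, X₀ ≤ X →
    δ * Nat.primeCounting X ≤ (Nat.card {p : ℕ // p ≤ X ∧ BadPrime b p} : ℝ)

/-- Let `L = ∑ b k ∂ ^ k` be an operator of order `r` with integral polynomial coefficients, Fuchsian,
with finite singular points among the distinct algebraic numbers `α j`, `j = 1, …, m`, with the
rational exponents `lam j l` at `α j` and `-phi l` at infinity (`FuchsianWith`), and irreducible over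
the algebraic numbers. Let `ε x` be rational numbers with sum zero (the exponents of an operator of
order one; the points `x` are the finite ones, `some j`, and infinity, `none`), and let `D x l` be the
differences of the exponents at `x` with `ε x`. Let `N` be a common denominator of the `D x l` and let
`x₀ ≠ x₁` be two of the points.

For a function `F` on `ℚ` let `balance F x₀ x₁ D` be
`∑ F (D x₁ i - D x₁ k) + ∑ F (D x₀ i - D x₀ k) - 2 ∑ F (D x₁ i + D x₀ k) -
(q ^ 2 + ∑ F (X - X') - 2 q ∑ F (X))`, where the `X` are the `q = (m - 1) r` numbers `D x l`,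
`x ≠ x₀, x₁`, and let `gam q` be the product of the numbers `-p` for the primes `p` dividing the
denominator of `q`, divided by the square of the denominator.

(1) There is a set `S` of residue classes modulo `N`, prime to `N`, with
`φ(N) * balance gam x₀ x₁ D ≤ 3 r ^ 2 * #S`, such that for all large primes `p` in these classes the
reduction of `L` modulo `p` does not have a full basis of rational solutions.

(2) If `3 r ^ 2 * δ < balance gam x₀ x₁ D`, then for all large `X` this is the case for at least
`δ π(X)` of the primes `p ≤ X`.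

(3) If `0 < balance gam x₀ x₁ D`, the open implication of the conjecture holds for `L`.

(4) If `N` is a prime number, `balance gam x₀ x₁ D = (1 + 1 / N) * mult x₀ x₁ D`, where
`mult x₀ x₁ D = P(x₁) + P(x₀) - 2 R - s ^ 2 - P'`: `P(x)` is the number of ordered pairs of
congruent (modulo `ℤ`) numbers `D x l`, `R` is the number of integers among the `D x₁ i + D x₀ k`,
`s` is the number of the `D x l`, `x ≠ x₀, x₁`, which are not integers and `P'` is the number of ordered
pairs of congruent numbers among these. If all prime factors of `N` are at least `d`, then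
`mult x₀ x₁ D - (4 r ^ 2 + 3 s ^ 2) / d ≤ balance gam x₀ x₁ D`.

(5) Assume that at most `r` of the numbers `D x l` with `x ≠ x₀` are not integers, that those with
`x ≠ x₁` are distinct modulo `ℤ` and that no `D x₁ i + D x₀ k` is an integer. Let `m₁` be the number of
the `D x₁ l` which are not integers. Then the density of the bad primes is at least
`(1 + 1 / N) 2 m₁ / (3 r ^ 2)` if `N` is a prime number, and at least
`(2 m₁ - 7 r ^ 2 / d) / (3 r ^ 2)` if all prime factors of `N` are at least `d`. -/
theorem result {m r : ℕ} (hm : 1 ≤ m) (hr : 1 ≤ r) (b : Fin (r + 1) → ℤ[X])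
    (α : Fin m → AlgebraicClosure ℚ) (lam : Fin m → Fin r → ℚ) (phi : Fin r → ℚ)
    (hF : FuchsianWith b α lam phi) (hirr : ¬ Reducible b)
    (ε : Option (Fin m) → ℚ) (D : Option (Fin m) → Fin r → ℚ) (hD : IsTwist lam phi ε D)
    (N : ℕ) (hN : 0 < N) (hND : ∀ x l, ∃ k : ℤ, (N : ℚ) * D x l = k)
    (x₀ x₁ : Option (Fin m)) (hx : x₁ ≠ x₀) :
    (∃ (S : Finset (ZMod N)ˣ) (P₀ : ℕ),
      (N.totient : ℚ) * balance gam x₀ x₁ D ≤ 3 * (r : ℚ) ^ 2 * S.card ∧
      ∀ p : ℕ, P₀ < p → (∃ v ∈ S, ((p : ℕ) : ZMod N) = ((v : (ZMod N)ˣ) : ZMod N)) →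
        ∀ _hp : Fact p.Prime, ¬ FullMod b p) ∧
    (∀ δ : ℝ, 3 * (r : ℝ) ^ 2 * δ < (balance gam x₀ x₁ D : ℚ) → BadDensity b δ) ∧
    (0 < balance gam x₀ x₁ D → Cond b → FullAlg b) ∧
    (N.Prime → balance gam x₀ x₁ D = (1 + 1 / (N : ℚ)) * mult x₀ x₁ D) ∧
    (∀ d : ℕ, Rough N d → mult x₀ x₁ D - (4 * (r : ℚ) ^ 2 + 3 * (nonintOff x₀ x₁ D : ℚ) ^ 2) / d ≤
      balance gam x₀ x₁ D) ∧
    (nonintAway x₀ D ≤ r → DistinctOff x₀ x₁ D → (∀ i k, (D x₁ i + D x₀ k).den ≠ 1) →
      (N.Prime → ∀ δ : ℝ, 3 * (r : ℝ) ^ 2 * δ < (1 + 1 / (N : ℝ)) * (2 * nonintAt x₁ D) →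
        BadDensity b δ) ∧
      ∀ d : ℕ, Rough N d → ∀ δ : ℝ, 3 * (r : ℝ) ^ 2 * δ < 2 * nonintAt x₁ D - 7 * (r : ℝ) ^ 2 / d →
        BadDensity b δ) := by
  classical
  obtain ⟨S, P₀, hS, hP⟩ := op_classes hm hr hF hirr hx hD hN hND
  have hrR : (0 : ℝ) < 3 * (r : ℝ) ^ 2 := by
    have : (0 : ℝ) < r := by exact_mod_cast hr
    positivity
  have hφ : (0 : ℝ) < N.totient := by exact_mod_cast Nat.totient_pos.2 hN
  have hSR : (N.totient : ℝ) * ((balance gam x₀ x₁ D : ℚ) : ℝ) ≤ 3 * (r : ℝ) ^ 2 * S.card := by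
    exact_mod_cast hS
  have h2 : ∀ δ : ℝ, 3 * (r : ℝ) ^ 2 * δ < (balance gam x₀ x₁ D : ℚ) → BadDensity b δ := by
    intro δ hδ
    obtain ⟨X₀, hX₀⟩ := lower_dens hN S P₀ (fun p => ∃ _hp : Fact p.Prime, ¬ FullMod b p)
      (fun p hp hpP hv => ⟨⟨hp⟩, hP p hpP hv ⟨hp⟩⟩) (δ := δ) (by
        have h3 : 3 * (r : ℝ) ^ 2 * (δ * N.totient) < 3 * (r : ℝ) ^ 2 * S.card := by
          calc 3 * (r : ℝ) ^ 2 * (δ * N.totient) = (3 * (r : ℝ) ^ 2 * δ) * N.totient := by ring
            _ < ((balance gam x₀ x₁ D : ℚ) : ℝ) * N.totient := mul_lt_mul_of_pos_right hδ hφ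
            _ = N.totient * ((balance gam x₀ x₁ D : ℚ) : ℝ) := by ring
            _ ≤ _ := hSR
        exact lt_of_mul_lt_mul_left h3 hrR.le)
    refine ⟨X₀, fun X hX => (hX₀ X hX).trans (le_of_eq ?_)⟩
    congr 1
    refine Nat.card_congr (Equiv.subtypeEquivRight fun p => ?_)
    unfold BadPrime
    exact ⟨fun h => ⟨h.1, h.2.2⟩, fun h => ⟨h.1, h.2.choose.out, h.2⟩⟩
  have h4 : N.Prime → balance gam x₀ x₁ D = (1 + 1 / (N : ℚ)) * mult x₀ x₁ D := by
    intro hNp
    rw [balance_prime hx hD hNp hND, balance_int1 hx]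
    rfl
  have h5 : ∀ d : ℕ, Rough N d →
      mult x₀ x₁ D - (4 * (r : ℚ) ^ 2 + 3 * (nonintOff x₀ x₁ D : ℚ) ^ 2) / d ≤
      balance gam x₀ x₁ D := by
    intro d hd
    have h := balance_rough hx hD hN hd.1 hd.2 hND
    rw [balance_int1 hx] at h
    exact h
  refine ⟨⟨S, P₀, hS, hP⟩, h2, fun h0 hc => ?_, h4, h5, fun hfew hdist hres => ?_⟩
  · exfalso
    have hSne : S.Nonempty := by
      rw [← card_pos]
      by_contra hcon
      have hc0 : S.card = 0 := by omega
      rw [hc0, Nat.cast_zero, mul_zero] at hS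
      have hφQ : (0 : ℚ) < N.totient := by exact_mod_cast Nat.totient_pos.2 hN
      exact absurd hS (not_le.2 (mul_pos hφQ h0))
    obtain ⟨v, hv⟩ := hSne
    obtain ⟨P, hPc⟩ := hc
    have : NeZero N := ⟨hN.ne'⟩
    obtain ⟨p, hp1, hp2, hp3⟩ := Nat.forall_exists_prime_gt_and_eq_mod (v.isUnit) (max P₀ P)
    exact hP p (lt_of_le_of_lt (le_max_left _ _) hp1) ⟨v, hv, hp3⟩ ⟨hp2⟩
      (hPc p (lt_of_le_of_lt (le_max_right _ _) hp1) ⟨hp2⟩)
  · have hres0 : resonances x₀ x₁ D = 0 := by
      unfold resonances
      rw [card_eq_zero, filter_eq_empty_iff]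
      exact fun p _ => hres p.1 p.2
    have hmult : 2 * (nonintAt x₁ D : ℚ) ≤ mult x₀ x₁ D := by
      have := okubo_bound hx hfew hdist
      unfold mult
      rw [hres0]
      push_cast
      linarith
    refine ⟨fun hNp δ hδ => h2 δ (lt_of_lt_of_le hδ ?_), fun d hd δ hδ => h2 δ (lt_of_lt_of_le hδ ?_)⟩
    · have h6 : (1 + 1 / (N : ℚ)) * (2 * nonintAt x₁ D) ≤ balance gam x₀ x₁ D := by
        rw [h4 hNp]
        exact mul_le_mul_of_nonneg_left hmult (by positivity)
      have h7 := (Rat.cast_le (K := ℝ)).2 h6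
      push_cast at h7
      exact h7
    · have hdQ : (0 : ℚ) < d := by exact_mod_cast hd.1
      have hs : (nonintOff x₀ x₁ D : ℚ) ≤ r := by
        have h7 := nonintAway_eq hx D
        have h8 : nonintOff x₀ x₁ D ≤ r := by omega
        exact_mod_cast h8
      have h9 : (4 * (r : ℚ) ^ 2 + 3 * (nonintOff x₀ x₁ D : ℚ) ^ 2) / d ≤ 7 * (r : ℚ) ^ 2 / d := by
        refine div_le_div_of_nonneg_right ?_ hdQ.le
        have : (nonintOff x₀ x₁ D : ℚ) ^ 2 ≤ (r : ℚ) ^ 2 :=
          pow_le_pow_left₀ (Nat.cast_nonneg _) hs 2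
        linarith
      have h6 : (2 * nonintAt x₁ D - 7 * (r : ℚ) ^ 2 / d : ℚ) ≤ balance gam x₀ x₁ D := by
        have := h5 d hd
        linarith
      have h7 := (Rat.cast_le (K := ℝ)).2 h6
      push_cast at h7
      exact h7

end Pool.Agent.Results.MP_aa40d3_nt.ExplicitDensity
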