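import Pool.Agent.U927.PC.MN
import Pool.Agent.U927.PC.HN

set_option autoImplicit false

/-!
# Rational accessory parameters are sparse, with an exponent tending to zero

Let `L_q = L_0 + q L_1 + ⋯ + q^(d-1) L_(d-1) + q^d r(x)` be a family of differential operators of
order at most `n` over `ℤ[x]` with a regular singular point at `0` whose exponents do not depend on
`q` (for `n = 2`, `d = 1`: Heun's equation with its accessory parameter `q`).  Let the difference of
two exponents at `0` be a rational number with denominator `N ≥ 2`.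

* Modulo a prime `p` the two exponents differ by an integer `g` with `N g ≡ u (mod p)`, and `g / p` is
  close to `v / N`, where `v` is determined by the class of `p` modulo `N`.  If the reduction of `L_q`
  has a full basis of rational solutions, then `q` modulo `p` is a root of the first compatibility
  polynomial of the recursion at `0`, whose degree is at most `d g`.  This holds for `g` and for
  `p - g`, so at most `d p min(v, N - v) / N + O(1)` classes modulo `p` are possible; for half of the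
  primes this is small if `N` is large.
* The larger sieve, with the prime number theorem in arithmetic progressions for the average of the
  savings over the classes modulo `N`, gives the bound for the number of rational `q` whose primes
  without a full basis have small logarithmic weight.
-/

namespace Pool.Agent.Results.MP_aa40d3_nt.LargeDenominatorSieve

open Polynomial Finset

/-- `p` is a prime and the reduction modulo `p` of `∑ b i ∂^i` has a full basis of rational
solutions: `n` solutions in `F_p(x)` that are linearly independent over the constants. This is the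
condition on `p` in the problem. -/
def Full (n : ℕ) (b : Fin (n + 1) → ℤ[X]) (p : ℕ) : Prop :=
  ∃ _ : Fact p.Prime, ∃ D : Derivation ℤ (RatFunc (ZMod p)) (RatFunc (ZMod p)),
    D (RatFunc.X : RatFunc (ZMod p)) = 1 ∧
    ∃ y : Fin n → RatFunc (ZMod p),
      (∀ j : Fin n, ∑ i : Fin (n + 1),
          Polynomial.aeval (RatFunc.X : RatFunc (ZMod p)) (b i) * (⇑D)^[(i : ℕ)] (y j) = 0) ∧
      ∀ c : Fin n → RatFunc (ZMod p), (∀ j, D (c j) = 0) →
        ∑ j : Fin n, c j * y j = 0 → ∀ j, c j = 0

/-- The coefficients of `m^d L_(a/m) = ∑_{k < d} a^k m^(d-k) L_k + a^d r`, where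
`L_k = ∑ b k i ∂^i`: the operator `L_q` for the rational number `q = a / m`, with the denominators
cleared. -/
noncomputable def family {n d : ℕ} (b : Fin d → Fin (n + 1) → ℤ[X]) (r : ℤ[X]) (q : ℚ) :
    Fin (n + 1) → ℤ[X] :=
  fun i => (∑ k : Fin d, C (q.num ^ (k : ℕ) * (q.den : ℤ) ^ (d - k)) * b k i) +
    if i = 0 then C (q.num ^ d) * r else 0

/-- The point `0` is a regular singular point of all the `L_q`, at which the exponents do not depend
on `q`; the leading coefficient of the indicial polynomial and the first coefficient of `r` are not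
divisible by any prime `p > P₁`. -/
structure Singular {n d : ℕ} (hd : 1 ≤ d) (b : Fin d → Fin (n + 1) → ℤ[X]) (r : ℤ[X]) (P₁ : ℕ) :
    Prop where
  h0 : ∀ (k : Fin d) (i : Fin (n + 1)), X ^ (i : ℕ) ∣ b k i
  h1 : ∀ (k : Fin d) (i : Fin (n + 1)), (k : ℕ) ≠ 0 → X ^ ((i : ℕ) + 1) ∣ b k i
  hr : X ∣ r
  lead : ∀ p : ℕ, p.Prime → P₁ < p → ¬ (p : ℤ) ∣ (b ⟨0, hd⟩ (Fin.last n)).coeff n
  lin : ∀ p : ℕ, p.Prime → P₁ < p → ¬ (p : ℤ) ∣ r.coeff 1

/-- The indicial polynomial of the family at `0`, evaluated at `s`: the lowest coefficient of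
`x^(-s) L_q x^s`. -/
noncomputable def indicial {n d : ℕ} (hd : 1 ≤ d) (b : Fin d → Fin (n + 1) → ℤ[X]) (s : ℚ) : ℚ :=
  ∑ i : Fin (n + 1), ((b ⟨0, hd⟩ i).coeff i : ℚ) * (descPochhammer ℚ i).eval s

open Classical in
/-- The sum of `log p / p` over the primes `p ≤ Y` for which the reduction of `∑ b i ∂^i` does not
have a full basis of rational solutions. -/
noncomputable def badSum (n : ℕ) (b : Fin (n + 1) → ℤ[X]) (Y : ℝ) : ℝ :=
  ∑ p ∈ Icc 1 ⌊Y⌋₊ with p.Prime ∧ ¬ Full n b p, Real.log p / p

/-- The average of `max (1, n / d, N / (d min (v, N - v)))` over the `v < N` coprime to `N`. -/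
noncomputable def average (n d N : ℕ) : ℝ :=
  (∑ v ∈ range N with N.Coprime v,
    max (max 1 ((n : ℝ) / d)) ((N : ℝ) / (d * (min v (N - v) : ℕ)))) / N.totient

/-- Let `n, d ≥ 1` and `N ≥ 2`, and let `A` be the average of `max (1, n / d, N / (d min (v, N - v)))`
over the `v < N` coprime to `N`.  Then `A ≥ (2 / d) log (N / 2)`, and for every `θ` with `A θ > 1`
there is `η > 0` such that for all `P₁, M` there is a constant `C` with the following property.  Let
`L_q = L_0 + q L_1 + ⋯ + q^(d-1) L_(d-1) + q^d r` be a family of operators of order at most `n` over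
`ℤ[x]` for which `0` is a regular singular point with exponents independent of `q` (`Singular`), and
let `e₁, e₂` be exponents at `0` whose difference is a rational number with denominator `N` and
numerator at most `M`.  Then for all `X, Z ≥ 1` with `H = X Z ≥ 2` at most `C H^θ` rational numbers `q`
with numerator at most `X` and denominator at most `Z` satisfy `∑ log p / p ≤ η log H`, where the sum
is over the primes `p ≤ H^θ` for which the reduction modulo `p` of `L_q` does not have a full basis
of rational solutions. -/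
theorem result (n d N : ℕ) (hn : 1 ≤ n) (hd : 1 ≤ d) (hN : 2 ≤ N) :
    2 / d * Real.log (N / 2) ≤ average n d N ∧
    ∀ θ : ℝ, 1 < average n d N * θ → ∃ η : ℝ, 0 < η ∧ ∀ P₁ M : ℕ, ∃ C : ℝ,
      ∀ (b : Fin d → Fin (n + 1) → ℤ[X]) (r : ℤ[X]), Singular hd b r P₁ →
      ∀ e₁ e₂ : ℚ, indicial hd b e₁ = 0 → indicial hd b e₂ = 0 →
        (e₂ - e₁).den = N → |(e₂ - e₁).num| ≤ M →
      ∀ X Z : ℝ, 1 ≤ X → 1 ≤ Z → 2 ≤ X * Z →
        (Set.ncard {q : ℚ | |(q.num : ℝ)| ≤ X ∧ (q.den : ℝ) ≤ Z ∧
          badSum n (family b r q) ((X * Z) ^ θ) ≤ η * Real.log (X * Z)} : ℝ) ≤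
            C * (X * Z) ^ θ := by
  have hAv : average n d N = U927.PC.avg N (U927.PC.Gf n d N) := rfl
  have hNe : NeZero N := ⟨by omega⟩
  have havg0 : 0 ≤ average n d N := by
    refine div_nonneg (sum_nonneg fun v _ => ?_) (Nat.cast_nonneg _)
    exact zero_le_one.trans (U927.PC.Gf_ge_one n d N v)
  refine ⟨?_, fun θ hθ => ?_⟩
  · rcases Nat.lt_or_ge N 3 with h | h
    · have : N = 2 := by omega
      subst this
      simpa using havg0
    · rw [hAv]
      exact U927.PC.avg_ge n hd h
  have hθ0 : 0 < θ := by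
    by_contra h0
    push Not at h0
    have := mul_nonpos_of_nonneg_of_nonpos havg0 h0
    linarith
  rw [hAv] at hθ
  obtain ⟨η, hη, h⟩ := U927.PC.core (N := N) (f := U927.PC.Gf n d N)
    (U927.PC.Gf_ge_one n d N) (fun v => U927.PC.Gf_le (n := n) (N := N) (v := v) hd) hθ0 hθ
  refine ⟨η, hη, fun P₁ M => ?_⟩
  obtain ⟨C, hC⟩ := h (max P₁ M) (d * M / N)
  refine ⟨C, fun b r hS e₁ e₂ he₁ he₂ hden hnum X Z hX hZ hXZ => ?_⟩
  have hcop : (e₂ - e₁).num.natAbs.Coprime N := by rw [← hden]; exact (e₂ - e₁).reduced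
  have hunit : IsUnit (-((e₂ - e₁).num : ZMod N)) := by
    refine IsUnit.neg ?_
    obtain ⟨x, y, hxy⟩ : IsCoprime (e₂ - e₁).num (N : ℤ) := by
      rw [Int.isCoprime_iff_nat_coprime]
      simpa using hcop
    have h1 := congrArg (fun z : ℤ => (z : ZMod N)) hxy
    simp only [Int.cast_add, Int.cast_mul, Int.cast_natCast, ZMod.natCast_self, mul_zero, add_zero,
      Int.cast_one] at h1
    exact IsUnit.of_mul_eq_one_right _ h1
  obtain ⟨u, hu⟩ := hunit
  refine hC (fun p q => Full n (family b r q) p) u ?_ X Z hX hZ hXZ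
  intro p hp hpP
  have hpF : Fact p.Prime := ⟨hp⟩
  have hP₁ : P₁ < p := (le_max_left _ _).trans_lt hpP
  have hMp : M < p := (le_max_right _ _).trans_lt hpP
  have hr1 : ((r.coeff 1 : ℤ) : ZMod p) ≠ 0 := fun h0 =>
    hS.lin p hp hP₁ ((ZMod.intCast_zmod_eq_zero_iff_dvd _ _).1 h0)
  have hβ : (((b ⟨0, hd⟩ (Fin.last n)).coeff n : ℤ) : ZMod p) ≠ 0 := fun h0 =>
    hS.lead p hp hP₁ ((ZMod.intCast_zmod_eq_zero_iff_dvd _ _).1 h0)
  have hfull : ∀ q : ℚ, Full n (family b r q) p → (q.den : ZMod p) ≠ 0 ∧
      W432.WB.FullMod (U927.PC.fam b r q.num q.den) p := by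
    rintro q ⟨_, hF⟩
    have hF' : W432.WB.FullMod (U927.PC.fam b r q.num q.den) p := hF
    refine ⟨fun h0 => ?_, hF'⟩
    refine U927.PC.not_full hn (a := q.num) (m := q.den) (by exact_mod_cast h0) ?_ hr1 hF'
    intro h1
    rw [ZMod.natCast_eq_zero_iff] at h0
    rw [ZMod.intCast_zmod_eq_zero_iff_dvd] at h1
    have h2 : p ∣ q.num.natAbs.gcd q.den := Nat.dvd_gcd (Int.natCast_dvd.mp h1) h0
    have h3 := q.reduced
    rw [Nat.Coprime] at h3
    rw [h3] at h2
    exact hp.one_lt.ne' (Nat.dvd_one.mp h2)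
  refine ⟨fun q hq => (hfull q hq).1, fun T hT => ?_⟩
  rw [hu]
  refine U927.PC.card_le_real hd ⟨hS.h0, hS.h1, hS.hr⟩ hr1 hβ he₁ he₂ hden hN rfl hnum hMp T ?_
  intro t ht
  obtain ⟨q, hq, hqt⟩ := hT t ht
  obtain ⟨h1, h2⟩ := hfull q hq
  refine ⟨q.num, q.den, by exact_mod_cast h1, ?_, h2⟩
  rw [← hqt, U927.PC.red, div_eq_mul_inv]
  push_cast
  rfl

end Pool.Agent.Results.MP_aa40d3_nt.LargeDenominatorSieve
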