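import Pool.Agent.N858.PC.FinalOp

set_option autoImplicit false

open Finset Polynomial Pool.Agent.W432.WB Pool.Agent.W432.HK Pool.Agent.Y227.SO Pool.Agent.N858.PC

/-!
# Operators of any order whose differences of exponents have rough denominators: relations of degree one

The operators `L = ∑ b k ∂ ^ k` have any order `n ≥ 2`, any number of singular points, arbitrary accessory
parameters, and they may be reducible. The differences of the exponents at the same point have a common
denominator without small prime factors; nothing is assumed about the sums of exponents at different
points. If the reductions of `L` modulo `p` have full bases of rational solutions for too many primes, then
there are integral relations between the exponents which involve all the singular points with degree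
one, with coefficients bounded in terms of the order and of the number of points, and such relations
persist after the deletion of any `n - 1` of the `(m + 1) n` exponents.

The general theorem is `Pool.Agent.N858.PC.final_op` (helper858), which was not handed in before; it is the
first step towards the starting files on operators of order two with five points and on irreducible
operators with index of rigidity at least zero.

Proof. If the primes with nonzero `p`-curvature have a small lower density, the operator is Fuchsian with
rational exponents and all the conjugates of the exponents are the weights of semistable (for irreducible
operators: stable) parabolic bundles (starting file `StableDensity`), so they satisfy the inequalities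
for line subbundles. For a sequence of exponents with denominators without small prime factors consider
the lattice of the relations satisfied by almost all of its members: every point of the annihilator of
the lattice is approximated by conjugates, and if the lattice contained no relation of degree one (no
nonnegative relation) avoiding a set `Ω` of less than `n` exponents, Gordan's alternative would give a point
of the annihilator at which an inequality is violated.
-/

namespace Pool.Agent.Results.MP_aa40d3_nt.RelationsOfDegreeOne

/-- For every number `m ≥ 1` of finite singular points and every order `n ≥ 2` there are `ε > 0` and `B` with
the following property. Let `L = ∑ b k ∂ ^ k` be an operator of order `n` with integral polynomial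
coefficients, and let `α j`, `j < m`, be algebraic numbers. For a family `e = allExp lam phi` of rational
exponents `e x l` at the `m + 1` points `x` (`some j`: `lam j l` at `α j`, `none`: `-phi l` at infinity) consider
the conditions:

* `Rough B e`: the differences `e x l - e x l'` have a common denominator all of whose prime factors are
  greater than `B`;
* `Structured B e`: for every set `Ω` of less than `n` of the `(m + 1) n` exponents there are
  a relation of degree one: integers `c x l` of absolute value at most `B`, zero on `Ω`, with
  `∑ l, c x l = 1` at every point `x`, such that `∑ x, ∑ l, c x l * e x l` is an integer; and
  a nonnegative relation: an integer `1 ≤ M ≤ B` and natural numbers `p x l`, zero on `Ω`, with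
  `∑ l, p x l = M` at every point `x`, such that `∑ x, ∑ l, p x l * e x l` is an integer;
  and for any two points `x ≠ y` there is a permutation `σ` such that for every `i` there is a relation of
  degree one (coefficients of absolute value at most `B`) in which `e x i` is the only exponent at `x`
  and `e y (σ i)` the only exponent at `y`;
* `Spread B e`: for every set `Ω` of less than `n` exponents there is a nonnegative relation as above, zero
  on `Ω`, in which at least two different exponents at one of the points have nonzero coefficients.

(1) If `L` is Fuchsian with finite singular points among the distinct `α j` and with the rational exponents
`lam`, `phi` (`FuchsianWith`) and `Rough B e`, then one of the following holds.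
(a) `Structured B e`, and if `L` is irreducible over the algebraic numbers also `Spread B e`.
(b) For every common denominator `N` of the exponents and for a proportion at least `ε` of the residue
classes modulo `N` prime to `N`, the reductions of `L` modulo all the large primes in these classes do not
have a full basis of rational solutions (`BadPrimes`); the lower density of the primes without full
basis is at least `ε` (`¬ FewBad`), so the condition of the conjecture fails (`¬ Cond`).
(2) If the `α j` are distinct and all the zeros of the leading coefficient are among them, and if the
lower density of the primes without full basis of rational solutions is less than `ε`, then `L` is Fuchsian
with rational exponents, and `Rough B e` implies `Structured B e`, and `Spread B e` if `L` is irreducible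
over the algebraic numbers. -/
theorem result (m n : ℕ) (hm : 1 ≤ m) (hn : 2 ≤ n) :
    ∃ (ε : ℝ) (B : ℕ), 0 < ε ∧ ∀ (b : Fin (n + 1) → ℤ[X]) (α : Fin m → AlgebraicClosure ℚ),
      (∀ lam phi, FuchsianWith b α lam phi → Rough B (allExp lam phi) →
        (Structured B (allExp lam phi) ∧ (¬ Reducible b → Spread B (allExp lam phi))) ∨
        (¬ Cond b ∧ ¬ FewBad b ε ∧ ∀ N, CommonDen lam phi N → BadPrimes b N ε)) ∧
      (ZerosAmong b α → FewBad b ε → ∃ lam phi, FuchsianWith b α lam phi ∧
        (Rough B (allExp lam phi) →
          Structured B (allExp lam phi) ∧ (¬ Reducible b → Spread B (allExp lam phi)))) := by
  obtain ⟨ε, B, hε, h⟩ := final_op m n hm hn
  exact ⟨ε, B, hε, fun b α => ⟨fun lam phi h1 h2 => ((h b α).1 lam phi h1 h2).symm, (h b α).2⟩⟩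

end Pool.Agent.Results.MP_aa40d3_nt.RelationsOfDegreeOne
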