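import Pool.Agent.N780.FinalE

/-!
# The `p`-curvature conjecture on the complement of the roots of unity, all orders `m`

Linear differential systems `(1 - x^m)^k Y' = A Y` of arbitrary rank, with coefficients in a ring
which is finite and free over the integers (for instance the integers of a number field). If the
`p`-curvature vanishes for all primes `p` beyond a bound `N₀(m)` which depends only on `m`, and a
condition of level `N₀(m)` holds at the primes `p ≤ N₀(m)`, then all solutions are algebraic, and
they all lie in one finite extension of `ℂ(x)` which depends only on `m`. Moreover it is enough that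
the conditions hold for the primes up to a bound which is linear in the height of the system, and
then the degree of the solutions is bounded in terms of `m` only.
-/

set_option autoImplicit false

namespace Pool.Agent.Results.MP_aa40d3_nt.RootsOfUnity

open Pool.Agent.N780.PCurv

/-- **Vanishing `p`-curvature on the complement of the `m`-th roots of unity.** Let `m ≥ 1`.

* Let `h(p)` be natural numbers with `∑_p log p / ((p - 1) p^(h(p))) < log 16 / m`. The solutions at
  `0` of the systems `(1 - x^m)^k Y' = A Y` of level `h(p)` at every prime `p`, of all ranks, exponents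
  `k` and degrees and over all coefficient rings, lie in ONE finite extension of `ℂ(x)`; and there is
  `N` such that for every coefficient ring, rank, `k` and degree there is `K` such that the solutions
  of every system of height `H` which has level `h(p)` only at the primes `p ≤ K (H + 1)` lie in an
  extension of `ℂ(x)` of degree at most `N`.
* There is `N₀` such that this holds for the condition: level `N₀` at the primes `p ≤ N₀`, and
  vanishing `p`-curvature (level `1`) for `p > N₀`. -/
theorem result (m : ℕ) (hm : m ≠ 0) :
    (∀ h : ℕ → ℕ,
      (Summable fun p : Nat.Primes => Real.log p / (((p : ℝ) - 1) * (p : ℝ) ^ h p)) →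
      ∑' p : Nat.Primes, Real.log p / (((p : ℝ) - 1) * (p : ℝ) ^ h p) < Real.log 16 / m →
      UniformlyAlgebraic 0 (1 - Polynomial.X ^ m) h ∧
        EffectivelyAlgebraic 0 (1 - Polynomial.X ^ m) h) ∧
    ∃ N₀ : ℕ, UniformlyAlgebraic 0 (1 - Polynomial.X ^ m) (upTo N₀) ∧
      EffectivelyAlgebraic 0 (1 - Polynomial.X ^ m) (upTo N₀) := by
  refine ⟨fun h hs hlt => ⟨Pool.Agent.N780.roots_general hm h hs hlt,
    Pool.Agent.N780.roots_general_eff hm h hs hlt⟩, ?_⟩
  have hpos : (0 : ℝ) < Real.log 16 / m := by
    have h1 : 0 < Real.log 16 := Real.log_pos (by norm_num)
    have h2 : (0 : ℝ) < m := by exact_mod_cast Nat.pos_of_ne_zero hm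
    positivity
  have h := Pool.Agent.N780.tendsto_upTo.eventually_lt_const hpos
  obtain ⟨N, hN, hN1⟩ := (h.and (Filter.eventually_ne_atTop 0)).exists
  exact ⟨N, Pool.Agent.N780.roots_general hm _ (Pool.Agent.N780.upTo_summable hN1) hN,
    Pool.Agent.N780.roots_general_eff hm _ (Pool.Agent.N780.upTo_summable hN1) hN⟩

end Pool.Agent.Results.MP_aa40d3_nt.RootsOfUnity
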